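import Pool.Agent.H8.VR.Targets
import Pool.Agent.H58.TW.FA
import Pool.Agent.H58.TW.FS
import Pool.Agent.H58.TW.FT

/-!
# Module FA: acceptance is definable
-/

set_option autoImplicit false

namespace Pool.Agent.H34.VR

open Pool.Agent.H69.Sp Pool.Agent.H69.Mt Pool.Agent.H8.VR Classical

/-- existential quantification over a block of variables -/
theorem fd_exB (P : Pd) (b k : ℕ) (h : FD P) : FD (fun N E v => ∃ f : ℕ → ℕ, (∀ i, f i < N) ∧
    P N E (Pool.Agent.H16.TO.updN v b k f)) := by
  refine (Pool.Agent.H58.TW.pf_fa _ b k h.not).not.congr fun N E v _ => ?_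
  constructor
  · intro h1
    by_contra h2
    exact h1 fun f hf hP => h2 ⟨f, hf, hP⟩
  · rintro ⟨f, hf, hP⟩ h1
    exact h1 f hf hP

theorem pf_FA : T_FA := by
  intro N Q L T C _ _ _ _ iN k e s₀ Ok
  have h1 : FD (fun _ E v => E (2 * iN s₀) ((List.range k).map fun j => v (1 + j))) :=
    (FD.par (2 * iN s₀) ((List.range k).map fun j => 1 + j)).congr fun M E v _ => by
      rw [List.map_map]
      rfl
  have h2 : FD (fun _ _ v => ∑ σ : Ix Q L T C, v (1 + e.ix σ) = v 0) :=
    Pool.Agent.H58.TW.fdS Pool.Agent.H58.TW.pf_fs Finset.univ (fun σ => 1 + e.ix σ) 0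
  have h3 : FD (fun _ _ v => ∀ σ : Ix Q L T C, v (1 + e.ix σ) ≠ 0 → Ok σ.2) := by
    refine (Pool.Agent.H58.TW.pf_fi (Ix Q L T C) (fun σ _ _ v => v (1 + e.ix σ) ≠ 0 → Ok σ.2)
      fun σ => ?_).1
    exact ((FD.num 0 (1 + e.ix σ)).not).imp (FD.const (Ok σ.2))
  refine (fd_exB _ 1 k (h1.and (h2.and h3))).congr fun M E v hv => ?_
  have hu : ∀ (f : ℕ → ℕ) (j : ℕ), j < k → Pool.Agent.H16.TO.updN v 1 k f (1 + j) = f j := by
    intro f j hj
    unfold Pool.Agent.H16.TO.updN
    rw [if_pos (by omega), Nat.add_sub_cancel_left]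
  have hu0 : ∀ f : ℕ → ℕ, Pool.Agent.H16.TO.updN v 1 k f 0 = v 0 := by
    intro f
    unfold Pool.Agent.H16.TO.updN
    rw [if_neg (by omega)]
  have hs : ∀ (f : ℕ → ℕ) (σ : Ix Q L T C), Pool.Agent.H16.TO.updN v 1 k f (1 + e.ix σ) =
      f (e.ix σ) := fun f σ => hu f _ (e.ix_lt σ)
  constructor
  · rintro ⟨f, hf, hE, ht, hO⟩
    refine ⟨fun σ => f (e.ix σ), fun σ => hf _, ?_, ?_, ?_⟩
    · unfold FE ls
      have h4 : ((List.range k).map fun j => f (e.ix (e.en j))) =
          (List.range k).map fun j => Pool.Agent.H16.TO.updN v 1 k f (1 + j) := by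
        refine List.map_congr_left fun j hj => ?_
        rw [List.mem_range] at hj
        rw [hu f j hj, e.ix_en j hj]
      rw [h4]
      exact hE
    · unfold tot
      rw [hu0] at ht
      rw [← ht]
      exact Finset.sum_congr rfl fun σ _ => (hs f σ).symm
    · intro σ h4
      refine hO σ ?_
      rw [hs]
      exact h4
  · rintro ⟨c, hc, hE, ht, hO⟩
    refine ⟨fun j => c (e.en j), fun j => hc _, ?_, ?_, ?_⟩
    · unfold FE ls at hE
      have h4 : ((List.range k).map fun j => c (e.en j)) =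
          (List.range k).map fun j =>
            Pool.Agent.H16.TO.updN v 1 k (fun j => c (e.en j)) (1 + j) := by
        refine List.map_congr_left fun j hj => ?_
        rw [List.mem_range] at hj
        rw [hu _ j hj]
      rw [← h4]
      exact hE
    · unfold tot at ht
      rw [hu0, ← ht]
      refine Finset.sum_congr rfl fun σ _ => ?_
      rw [hs, e.en_ix]
    · intro σ h4
      refine hO σ ?_
      rw [hs, e.en_ix] at h4
      exact h4

end Pool.Agent.H34.VR
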